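import Mathlib
import Pool.Agent.TH115.GD.Defs
import Pool.Agent.TH115.ID.Defs
import Pool.Agent.K9h16.MT.Spl
import Pool.Agent.K9h16.ET.Glue
import Pool.Agent.K9h16.GK.Def
import Pool.Agent.K9h16.GK.TwoC

/-!
# A Galois criterion for the Tate conjecture at 2, in all codimensions, for the products of a variety with
# the square of an elliptic surface with a section of order two

Let `k` be ANY field of characteristic different from 2, `k'` a separable closure of `k`, and `X` the
elliptic surface over the projective line with the generic fibre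

`E : y² = x (x² + a x + b)`

for polynomials `a`, `b` over `k`; let `d = a² - 4 b`. Let `M` be a finite extension of `k` in `k'` (for
instance `M = k`). The pair `(a, b)` satisfies the CRITERION over `M` if

* `b` and `d` are separable of degree at least `6`,
* the Galois group of the splitting field `M'` of `b d` over `M` is the product of the two symmetric groups
  of the roots of `b` and of the roots of `d`,
* for some roots `θ`, `θ'` of `b` and `η`, `η'` of `d` the product
  `(θ - η) (θ' - η) (θ - η') (θ' - η')` is not a square in `M'`.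

(For instance the last condition holds if there is a discrete valuation of `M` at which `b` and `d` have
separable reductions of the same degrees and the valuation of the resultant of `b` and `d` is odd. This
remark is not a part of the theorem.)

Theorem. (1) (The criterion.) Let `(a, b)` satisfy the criterion over `M`. Then for EVERY abelian group `U`
with an action of `Gal(k' / k)` such that `Gal(k' / M)` acts trivially on `U / 2 U`, for EVERY finite
extension `L` of `k` in `k'` and for EVERY `δ ≠ 0` in `L`, with `T = T₂ Sel(E_δ / k'(t))` modulo torsion for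
the twist `E_δ : y² = x (x² + δ a x + δ² b)`,

(i) every homomorphism of `Gal(k' / L)`-modules `U → T` is zero;

(ii) every homomorphism of `Gal(k' / L)`-modules `U → End(T)` has scalar values: for each `x` in `U` and each
`j` there is an integer `z` such that the value at `x` is `z` modulo `2 ^ j`.

So for `U = ℤ₂` (and `M = k`): `T` has no nonzero element which is fixed by an open subgroup of the Galois
group of `k`, and its endomorphisms which commute with an open subgroup are the 2-adic scalars.

(2) (100%.) Let `R` be an integrally closed domain which is finitely generated as a ring and not a field,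
with `2 ≠ 0` in `R`, and `k` its field of fractions (each infinite finitely generated field of
characteristic different from 2 is of this form), `M` a finite extension of `k` in `k'` and `m ≥ 3`. Let
`B 0`, `B 1`, ... be a sequence of nonempty finite sets of pairs `(a, b)` over `R` of degrees at most `m` and
`2 m` which is equidistributed modulo each ideal of `R` with finite quotient. Then the proportion of the
pairs in `B i` which satisfy the criterion over `M` tends to `1`.

What it means for the Tate conjecture (this part is classical and is not in the Lean code): let `k` be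
finitely generated, let `(a, b)` satisfy the criterion over `M`, and `V = V₂ Sel(E / k'(t))`. The cohomology
of `X` is the sum of `V` and of the classes of fibre components and the zero section, in degree two, and of
one-dimensional spaces in the degrees zero and four; and `V` is its own dual. So the Tate classes on `X × X`
over any finite extension of `k` are sums of products of divisors, of the classes of `X × point` and
`point × X`, and of multiples of the class of the diagonal: the Tate conjecture at 2 is true for `X × X`, in
all codimensions and over all finite extensions. By the criterion of Jannsen, all the varieties (singular or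
not) over finite extensions of `k` with `X` as a good proper cover satisfy (b), the Tate conjecture in étale
homology with the injectivity.
More generally, let `Y` be a smooth projective variety over `k`, of any dimension, such that
`Gal(k' / M)` acts trivially on the reduction modulo two of the 2-adic cohomology (modulo torsion) of `Y`. If
the Tate conjecture at 2 is true for `Y` in all codimensions over all finite extensions of `k`, then it is
true for `Y × X` and for `Y × X × X` in all codimensions over all finite extensions of `k`; so the class of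
all such `Y` for which it is true for `Y × Y` is closed under `Y ↦ Y × X`.

The proof. Let `G` be the Galois group of `M(t)`, `V` the group of all the classes in
`T₂ Sel(E / k'(t))` modulo torsion and `V'` the same for the isogenous curve; let `H` be an open normal
subgroup of `G` and `S` the group of all the homomorphisms of `H`-modules from `U` to `V` or to `End(V)`. It is
torsion-free and 2-adically separated, and `G` acts on it through a finite quotient. (a) If `u` in `G`
acts trivially on `V / 2` then `u²` acts trivially on `S` modulo four, so it acts trivially on `S`. So for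
`u = w²` the values of the elements of `S` commute with `w⁴` modulo eight. (b) The operator `w⁴ - 1` on `V`
modulo eight is known in terms of the parity functions of the classes and of the signs of
`w` on the square roots of `θ - η` (`θ`, `η` roots of `b`, `d`). Elements with few minors of the signs (which
are commutators of transpositions and an automorphism which changes the sign of the nonsquare minor)
show that the values of `S` are zero, or scalars in the case of `End(V)`, modulo two, and so that `G` acts
trivially on `S / 2`. (c) So the squares of the elements of `G` act trivially on `S`. So the values of `S`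
in `End(V)` commute modulo `2 ^ j` with all the `2 ^ N`-th powers of elements of `G`, for large `N`. The
normal subgroup which they generate contains elements which act on the roots of `d` as cycles of length three
and fix the roots of `b`, and the commutators of these with the elements with a single minor, which again
have a single minor. The only additive functions `V → V` which commute with these modulo `2 ^ j` are the
scalars modulo `2 ^ j`. (d) For (2): Frobenius elements at maximal ideals of `R` which have a maximal ideal
with the same residue field above them in the integral closure of `R` in `M` give the elements of `G`; the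
counts of the events over finite fields, and a sieve over the maximal ideals.
-/

namespace Pool.Agent.Results.MP_4776b1_ag.GaloisCriterion

open Polynomial Pool.Agent.TH115.GD Pool.Agent.K9h16.GK Filter Topology
open scoped Classical

/-- The polynomial over `k` with the coefficients `c`. -/
noncomputable def poly {R : Type} [CommRing R] (k : Type) [Field k] [Algebra R k] {r : ℕ}
    (c : Fin r → R) : k[X] :=
  ∑ j : Fin r, C (algebraMap R k (c j)) * X ^ (j : ℕ)

/-- The pairs of coefficient vectors of polynomials of degrees at most `m` and `2 m`. -/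
abbrev Pairs (m : ℕ) (R : Type) : Type := (Fin (m + 1) → R) × (Fin (2 * m + 1) → R)

/-- The curve `y² = x (x² + δ a x + δ² b)` over `K = L(t)`, for `δ` in `L` and polynomials `a`, `b` over the
subfield `k` of `L`. -/
noncomputable def curve {k L : Type} [Field k] [Field L] [Algebra k L] (K : Type) [Field K]
    [Algebra L[X] K] (a b : k[X]) (δ : L) : WeierstrassCurve K :=
  ⟨0, algebraMap L[X] K (C δ * a.map (algebraMap k L)), 0,
    algebraMap L[X] K (C (δ ^ 2) * b.map (algebraMap k L)), 0⟩

/-- Sequences of functions on the Galois group of `F` with values in the points. -/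
abbrev Seqs {K : Type} [Field K] (W : WeierstrassCurve K) (F : Type) [Field F] [Algebra K F] : Type :=
  ℕ → (Sep F ≃ₐ[F] Sep F) → Pt W (Sep F)

/-- The elements of the Tate module `T₂ Sel(W / F)`, for `F = k'(t)`: sequences of locally trivial cocycles
with values in the Tate module of `W`. -/
def IsClass {K F : Type} [Field K] [Field F] [Algebra K F] (k' : Type) [Field k'] [Algebra k'[X] F]
    [IsFractionRing k'[X] F] (W : WeierstrassCurve K) (c : Seqs W F) : Prop :=
  IsTC W c ∧ ∀ n, LocallyTrivial k' W (c n)

/-- The sequence of cocycles `c` is zero in `V₂ Sel`: for each `n` there is a point `S` with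
`2 ^ (n + 1) S = 0` whose coboundary is `c n`. -/
def IsZero {K F : Type} [Field K] [Field F] [Algebra K F] (W : WeierstrassCurve K)
    (c : Seqs W F) : Prop :=
  ∀ n, ∃ S : Pt W (Sep F), 2 ^ (n + 1) • S = 0 ∧ ∀ σ, c n σ = act W (rs K σ) S - S

/-- The automorphism `τ` over `K` restricts to `s` on the constants `k'` of `F = k'(t)`. -/
def Restricts {L k' K F : Type} [Field L] [Field k'] [Algebra L k'] [Field K] [Field F]
    [Algebra k'[X] F] [Algebra K F] (s : k' ≃ₐ[L] k') (τ : Sep F ≃ₐ[K] Sep F) : Prop :=
  ∀ z : k', τ (algebraMap F (Sep F) (algebraMap k'[X] F (C z))) =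
    algebraMap F (Sep F) (algebraMap k'[X] F (C (s z)))

/-- The class of `c'` is the conjugate of the class of `c` by `τ`: `c' n σ` is the image under `τ` of the
value of `c n` at the conjugate of `σ`, up to coboundaries of points which are killed by `2 ^ (n + 1)`. -/
def IsConj {K F : Type} [Field K] [Field F] [Algebra K F] (W : WeierstrassCurve K)
    (τ : Sep F ≃ₐ[K] Sep F) (c c' : Seqs W F) : Prop :=
  ∀ n : ℕ, ∃ S : Pt W (Sep F), 2 ^ (n + 1) • S = 0 ∧
    ∀ σ σ' : Sep F ≃ₐ[F] Sep F, (∀ z, τ (σ' z) = σ (τ z)) →
      c' n σ - act W (ak τ) (c n σ') = act W (rs K σ) S - S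

/-- `h` is a homomorphism of `Gal(k' / L)`-modules from the `Gal(k' / k)`-module `U` to `T₂ Sel(W / F)`
modulo torsion, for a curve `W` over `K = L(t)`, with `F = k'(t)`. -/
structure IsHom {k k' : Type} [Field k] [Field k'] [Algebra k k'] (L : IntermediateField k k')
    {U : Type} [AddCommGroup U] [DistribMulAction (k' ≃ₐ[k] k') U] {K F : Type} [Field K] [Field F]
    [Algebra k'[X] F] [IsFractionRing k'[X] F] [Algebra K F] (W : WeierstrassCurve K)
    (h : U → Seqs W F) : Prop where
  cls : ∀ x, IsClass k' W (h x)
  add : ∀ x y, IsZero W (h (x + y) - (h x + h y))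
  equ : ∀ (s : k' ≃ₐ[L] k') (τ : Sep F ≃ₐ[K] Sep F), Restricts s τ → ∀ x : U,
    IsConj W τ (h x) (h ((s.restrictScalars k : k' ≃ₐ[k] k') • x))

/-- `h` is a homomorphism of `Gal(k' / L)`-modules from the `Gal(k' / k)`-module `U` to the group of
the endomorphisms of `T₂ Sel(W / F)` modulo torsion. -/
structure IsEndHom {k k' : Type} [Field k] [Field k'] [Algebra k k'] (L : IntermediateField k k')
    {U : Type} [AddCommGroup U] [DistribMulAction (k' ≃ₐ[k] k') U] {K F : Type} [Field K] [Field F]
    [Algebra k'[X] F] [IsFractionRing k'[X] F] [Algebra K F] (W : WeierstrassCurve K)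
    (h : U → Seqs W F → Seqs W F) : Prop where
  cls : ∀ x c, IsClass k' W c → IsClass k' W (h x c)
  zero : ∀ x c, IsClass k' W c → IsZero W c → IsZero W (h x c)
  add : ∀ x y c, IsClass k' W c → IsZero W (h (x + y) c - (h x c + h y c))
  add' : ∀ x c c', IsClass k' W c → IsClass k' W c' → IsZero W (h x (c + c') - (h x c + h x c'))
  equ : ∀ (s : k' ≃ₐ[L] k') (τ : Sep F ≃ₐ[K] Sep F), Restricts s τ → ∀ (x : U) (c c' : Seqs W F),
    IsClass k' W c → IsClass k' W c' → IsConj W τ c c' →
      IsConj W τ (h x c) (h ((s.restrictScalars k : k' ≃ₐ[k] k') • x) c')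

/-- The endomorphism `φ` of `T₂ Sel(W / F)` modulo torsion is a 2-adic scalar: it is an integer modulo each
power of two. -/
def IsScalar {K F : Type} [Field K] [Field F] [Algebra K F] (k' : Type) [Field k']
    [Algebra k'[X] F] [IsFractionRing k'[X] F] (W : WeierstrassCurve K)
    (φ : Seqs W F → Seqs W F) : Prop :=
  ∀ j : ℕ, ∃ z : ℤ, ∀ c, IsClass k' W c → ∃ w, IsClass k' W w ∧
    IsZero W (φ c - z • c - (2 : ℤ) ^ j • w)

/-- `Gal(k' / M)` acts trivially on `U / 2 U`. -/
def TrivialModTwo {k k' : Type} [Field k] [Field k'] [Algebra k k'] (M : IntermediateField k k')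
    (U : Type) [AddCommGroup U] [DistribMulAction (k' ≃ₐ[k] k') U] : Prop :=
  ∀ s : k' ≃ₐ[k] k', (∀ z ∈ M, s z = z) → ∀ x : U, ∃ y : U, s • x - x = y + y

/-- For EVERY finite extension `L` of `k` in `k'` and EVERY `δ ≠ 0` in `L`, and for the curve
`y² = x (x² + δ a x + δ² b)` over `L(t)`: all the homomorphisms of `Gal(k' / L)`-modules from `U` to the group
of the classes are zero, and all those to its endomorphisms have only scalar values. -/
def Rigid {k : Type} (k' : Type) [Field k] [Field k'] [Algebra k k'] (a b : k[X])
    (U : Type) [AddCommGroup U] [DistribMulAction (k' ≃ₐ[k] k') U] : Prop :=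
  ∀ (L : IntermediateField k k') [FiniteDimensional k L] (K F : Type) [Field K] [Algebra L[X] K]
    [Field F] [Algebra k'[X] F] [IsFractionRing k'[X] F] [Algebra K F], IsTower L k' K F →
    ∀ δ : L, δ ≠ 0 →
      (∀ h : U → Seqs (curve K a b δ) F, IsHom L (curve K a b δ) h →
        ∀ x, IsZero (curve K a b δ) (h x)) ∧
      (∀ h : U → Seqs (curve K a b δ) F → Seqs (curve K a b δ) F,
        IsEndHom L (curve K a b δ) h → ∀ x, IsScalar k' (curve K a b δ) (h x))

/-- The criterion for `y² = x (x² + a x + b)`: `b` and `a² - 4 b` are separable of degree at least `6`, the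
Galois group of their product is the product of the two symmetric groups, and a minor is not a square in
its splitting field. -/
structure Criterion {k : Type} [Field k] (a b : k[X]) : Prop where
  sepB : b.Separable
  sepD : (a ^ 2 - 4 * b).Separable
  degB : 6 ≤ b.natDegree
  degD : 6 ≤ (a ^ 2 - 4 * b).natDegree
  gal : FullProduct b (a ^ 2 - 4 * b)
  minor : NonsquareMinor b (a ^ 2 - 4 * b)

/-- The criterion over the extension `M` of `k`. -/
def CriterionOver {k k' : Type} [Field k] [Field k'] [Algebra k k'] (M : IntermediateField k k')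
    (a b : k[X]) : Prop :=
  Criterion (a.map (algebraMap k M)) (b.map (algebraMap k M))

theorem gc_of_criterion {k : Type} [Field k] (h2 : (2 : k) ≠ 0) {a b : k[X]} (h : Criterion a b) :
    Pool.Agent.K9h16.QT.GC a b := by
  have h0 : b * (a ^ 2 - 4 * b) ≠ 0 := mul_ne_zero h.sepB.ne_zero h.sepD.ne_zero
  have h0' : (a ^ 2 - 4 * b) * b ≠ 0 := mul_ne_zero h.sepD.ne_zero h.sepB.ne_zero
  have hB := h.degB
  have hD := h.degD
  exact ⟨⟨h2, h.sepB, h.sepD, coprime_of h.gal h0 h.sepB (by omega), by omega, by omega⟩,
      fullG_of h.gal h0, fullG_of (fullProduct_symm h.gal h0) h0',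
      pairG_of h.gal h0 h.sepD (by omega),
      pairG_of (fullProduct_symm h.gal h0) h0' h.sepB (by omega), minG_of h0 h.minor,
      by omega, by omega⟩

theorem rigid_of {k k' : Type} [Field k] [Field k'] [Algebra k k'] [IsSepClosure k k']
    (h2 : (2 : k) ≠ 0) (M : IntermediateField k k') [FiniteDimensional k M] {a b : k[X]}
    (h : CriterionOver M a b) {U : Type} [AddCommGroup U] [DistribMulAction (k' ≃ₐ[k] k') U]
    (hU : TrivialModTwo M U) : Rigid k' a b U := by
  have h2M : (2 : M) ≠ 0 := by
    rw [← map_ofNat (algebraMap k M) 2]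
    exact (map_ne_zero_iff _ (algebraMap k M).injective).2 h2
  have h4 := gc_of_criterion h2M h
  intro L _ K F _ _ _ _ _ _ hT δ hδ
  constructor
  · intro h hh x
    exact Pool.Agent.K9h16.MT.glue hT h4 hδ hU (h := h) (fun x => (hh.cls x).1)
      (fun x => (hh.cls x).2) hh.add
      (fun s τ hsτ x n => hh.equ s τ (fun z => by
        have h5 := hsτ (C z)
        rw [map_C] at h5
        exact h5) x n) x
  · intro h' hh x j
    exact Pool.Agent.K9h16.ET.glueE hT h4 h.degB h.degD hδ hU rfl
      (h := h') hh.cls hh.zero hh.add hh.add'
      (fun s τ hsτ x c c' hc hc' he => hh.equ s τ (fun z => by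
        have h5 := hsτ (C z)
        rw [map_C] at h5
        exact h5) x c c' hc hc' (fun n => ⟨0, smul_zero _, fun σ σ' hσ => by
          rw [map_zero, sub_zero, he n σ σ' hσ]
          exact sub_self _⟩)) x j

/-- The pair `y` over `R` is in the residue class `z`. -/
def InClass {R : Type} [CommRing R] {m : ℕ} {I : Ideal R} (y : Pairs m R)
    (z : Pairs m (R ⧸ I)) : Prop :=
  (∀ j, Ideal.Quotient.mk I (y.1 j) = z.1 j) ∧ (∀ j, Ideal.Quotient.mk I (y.2 j) = z.2 j)

/-- A sequence of finite sets of pairs which is equidistributed modulo each ideal with finite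
quotient. -/
def Equidistributed {R : Type} [CommRing R] {m : ℕ} (B : ℕ → Finset (Pairs m R)) : Prop :=
  ∀ I : Ideal R, Finite (R ⧸ I) → ∀ z : Pairs m (R ⧸ I),
    Tendsto (fun i => (((B i).filter (fun y => InClass y z)).card : ℝ) / ((B i).card : ℝ)) atTop
      (𝓝 (1 / (Nat.card (Pairs m (R ⧸ I)) : ℝ)))

/-- The vector of all the coefficients. -/
def toV {m : ℕ} {R : Type} (z : Pairs m R) : Fin (m + 1) ⊕ Fin (2 * m + 1) → R :=
  Sum.elim z.1 z.2

theorem toV_inj {m : ℕ} {R : Type} : Function.Injective (toV (m := m) (R := R)) := by
  rintro ⟨a, b⟩ ⟨a', b'⟩ h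
  exact Prod.ext (funext fun j => congrFun h (Sum.inl j)) (funext fun j => congrFun h (Sum.inr j))

theorem toV_surj {m : ℕ} {R : Type} (y : Fin (m + 1) ⊕ Fin (2 * m + 1) → R) :
    ∃ z : Pairs m R, toV z = y := by
  refine ⟨(fun j => y (Sum.inl j), fun j => y (Sum.inr j)), ?_⟩
  funext j
  rcases j with j | j <;> rfl

theorem inClass_iff {R : Type} [CommRing R] {m : ℕ} {I : Ideal R} (y : Pairs m R)
    (z : Pairs m (R ⧸ I)) :
    InClass y z ↔ ∀ j, Ideal.Quotient.mk I (toV y j) = toV z j := by
  constructor
  · rintro ⟨h1, h2⟩ (j | j)
    · exact h1 j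
    · exact h2 j
  · intro h
    exact ⟨fun j => h (Sum.inl j), fun j => h (Sum.inr j)⟩

section good

variable {R k k' : Type} [CommRing R] [IsDomain R] [IsIntegrallyClosed R] [Algebra.FiniteType ℤ R]
  [Field k] [Algebra R k] [IsFractionRing R k] [Field k'] [Algebra k k'] [IsSepClosure k k']
  (M : IntermediateField k k') [FiniteDimensional k M] [Algebra R M] [IsScalarTower R k M]

theorem criterion_of (h2 : (2 : R) ≠ 0) {m B : ℕ} (hm : 3 ≤ m) {z : Pairs m R}
    (h : ∀ s : Pool.Agent.K9h16.QT.Iq, ∃ Q ∈ Pool.Agent.X243.Gen.Zg (integralClosure R M) B,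
      (fun j => Ideal.Quotient.mk Q (algebraMap R (integralClosure R M) (toV z j))) ∈
        Pool.Agent.K9h16.QT.Gq m s (integralClosure R M ⧸ Q)) :
    CriterionOver M (poly k z.1) (poly k z.2) := by
  have : Algebra.IsSeparable k k' := IsSepClosure.separable
  have : Algebra.IsSeparable k M := inferInstance
  have ea := (Pool.Agent.X243.Tate.bF_map (algebraMap R k) z.1).symm
  have eb := (Pool.Agent.X243.Tate.bF_map (algebraMap R k) z.2).symm
  obtain ⟨h1, h3, h4⟩ := Pool.Agent.K9h16.MT.gc_ext (M := M) (k := k) (y := toV z) h2 hm h
    (poly k z.1) (poly k z.2) ea eb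
  have h6 := h1.1.2
  have h6' := h3.1.2
  exact ⟨h4.S.sb, h4.S.sd, by rw [h6]; omega, by rw [h6']; omega,
    fullProduct_of h4.S.sb h4.S.sd h4.fb h4.fd h4.db h4.bd,
    nonsquareMinor_of h4.S.h2 h4.S.sb h4.S.sd h4.S.cop h4.mn⟩

end good

theorem result :
    (∀ (k k' : Type) [Field k] [Field k'] [Algebra k k'] [IsSepClosure k k'], (2 : k) ≠ 0 →
      ∀ (M : IntermediateField k k') [FiniteDimensional k M] (a b : k[X]), CriterionOver M a b →
        ∀ (U : Type) [AddCommGroup U] [DistribMulAction (k' ≃ₐ[k] k') U], TrivialModTwo M U →
          Rigid k' a b U) ∧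
    ∀ (R k k' : Type) [CommRing R] [IsDomain R] [IsIntegrallyClosed R] [Algebra.FiniteType ℤ R]
      [Field k] [Algebra R k] [IsFractionRing R k] [Field k'] [Algebra k k'] [IsSepClosure k k'],
      ¬ IsField R → (2 : R) ≠ 0 →
      ∀ (M : IntermediateField k k') [FiniteDimensional k M] (m : ℕ), 3 ≤ m →
        ∀ B : ℕ → Finset (Pairs m R), (∀ i, (B i).Nonempty) → Equidistributed B →
          Tendsto (fun i => (((B i).filter (fun y =>
              CriterionOver M (poly k y.1) (poly k y.2))).card : ℝ) /
            ((B i).card : ℝ)) atTop (𝓝 1) := by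
  refine ⟨fun k k' _ _ _ _ h2 M _ a b h U _ _ hU => rigid_of h2 M h hU, ?_⟩
  intro R k k' _ _ _ _ _ _ _ _ _ _ hR h2 M _ m hm
  have : Algebra.IsSeparable k k' := IsSepClosure.separable
  have : Algebra.IsSeparable k M := inferInstance
  let _ : Algebra R M := ((algebraMap k M).comp (algebraMap R k)).toAlgebra
  have : IsScalarTower R k M := IsScalarTower.of_algebraMap_eq fun _ => rfl
  have hcard : ∀ I : Ideal R, (Nat.card (Pairs m (R ⧸ I)) : ℝ) =
      (Nat.card (R ⧸ I) : ℝ) ^ (Fintype.card (Fin (m + 1) ⊕ Fin (2 * m + 1))) := by
    intro I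
    rw [Nat.card_congr (Equiv.ofBijective _ ⟨toV_inj (m := m) (R := R ⧸ I), toV_surj⟩),
      Nat.card_fun, Nat.card_eq_fintype_card (α := Fin (m + 1) ⊕ Fin (2 * m + 1))]
    push_cast
    rfl
  -- the good vectors
  obtain ⟨S, hS⟩ : ∃ S : Set (Fin (m + 1) ⊕ Fin (2 * m + 1) → R),
      S = {x | ∃ z : Pairs m R, toV z = x ∧ CriterionOver M (poly k z.1) (poly k z.2)} := ⟨_, rfl⟩
  have hSmem : ∀ y : Pairs m R, toV y ∈ S ↔ CriterionOver M (poly k y.1) (poly k y.2) := by
    intro y
    rw [hS]
    constructor
    · rintro ⟨z, hz, hg⟩
      rwa [toV_inj hz] at hg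
    · intro hg
      exact ⟨y, rfl, hg⟩
  obtain ⟨B0, hB0⟩ := Pool.Agent.K9h16.MT.densM R k M hR h2 hm
  have key : ∀ η : ℝ, 0 < η → ∃ I : Ideal R, Finite (R ⧸ I) ∧
      (1 - η) * (Nat.card (R ⧸ I) : ℝ) ^ (Fintype.card (Fin (m + 1) ⊕ Fin (2 * m + 1))) ≤
        (({x : Fin (m + 1) ⊕ Fin (2 * m + 1) → R ⧸ I |
          ∀ y : Fin (m + 1) ⊕ Fin (2 * m + 1) → R,
          (∀ j, Ideal.Quotient.mk I (y j) = x j) → y ∈ S}).ncard : ℝ) := by
    intro η hη
    obtain ⟨I, hI, hd⟩ := hB0 η hη
    have := hI
    refine ⟨I, hI, hd.trans ?_⟩
    have h3 : ∀ S T : Set (Fin (m + 1) ⊕ Fin (2 * m + 1) → R ⧸ I), S ⊆ T →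
        ((S.ncard : ℕ) : ℝ) ≤ ((T.ncard : ℕ) : ℝ) := fun S T h => by
      exact_mod_cast Set.ncard_le_ncard h (Set.toFinite _)
    apply h3
    intro x hx y hy
    obtain ⟨z, rfl⟩ := toV_surj y
    rw [hSmem]
    exact criterion_of M h2 hm (B := B0) (hx (toV z) hy)
  intro B hB heq
  have hinj : Function.Injective (toV (R := R) (m := m)) := toV_inj
  have hc : ∀ (i : ℕ) (P : (Fin (m + 1) ⊕ Fin (2 * m + 1) → R) → Prop) [DecidablePred P]
      (Q : Pairs m R → Prop) [DecidablePred Q], (∀ y, P (toV y) ↔ Q y) →
      (((B i).map ⟨toV, hinj⟩).filter P).card = ((B i).filter Q).card := by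
    intro i P _ Q _ hPQ
    rw [Finset.filter_map, Finset.card_map]
    congr 1
    ext y
    rw [Finset.mem_filter, Finset.mem_filter]
    exact and_congr_right fun _ => hPQ y
  have hlim := Pool.Agent.X243.Gen.tendsto_of_dens S key (fun i => (B i).map ⟨toV, hinj⟩)
    (fun i => (hB i).map) (by
      intro I hI x
      obtain ⟨z, rfl⟩ := toV_surj x
      have h1 := heq I hI z
      rw [hcard] at h1
      refine h1.congr fun i => ?_
      rw [Finset.card_map, hc i _ (fun y => InClass y z) (fun y => (inClass_iff y z).symm)])
  refine hlim.congr fun i => ?_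
  rw [Finset.card_map, hc i _ (fun y => CriterionOver M (poly k y.1) (poly k y.2)) hSmem]

end Pool.Agent.Results.MP_4776b1_ag.GaloisCriterion
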