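import Pool.Agent.K9h8.Kum.Full2

/-!
# Kummer covers of `ℓ`-power degree in all dimensions: the Frobenius on the primitive cohomology modulo `ℓ`,
# and the Tate conjectures over all `ℓ`-power extensions

Let `k` be a finite field with `q` elements, `ℓ` a prime with `ℓ ∣ q - 1`, `Y` a closed subset of dimension `N` of
projective space over `k`, and `f 0, ..., f N` forms over `k` of degrees `d 0, ..., d N` prime to `ℓ` without common
zero on `Y`. For `m = ℓ ^ n` let `X_n` be the Kummer cover

`b_i ^ m = f_i(a)`, `i = 0, ..., N`,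

of `Y` (in weighted projective space, the coordinates `a_j` of weight `m`, `b_i` of weight `d i`). For a proper subset
`J` of the indices put `Y_J = Y ∩ {f_i = 0 for i ∈ J}`; let `R_J` and `R_n` be the primitive parts of the zeta
functions of `Y_J` and `X_n` (`IsPrimitive`), for example the characteristic polynomials of the Frobenius on the
primitive cohomology in the middle degree if `Y = P ^ N` and the hypersurfaces are smooth and in general position;
then `X_n` is smooth and projective. We prove: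

* the congruence `R_n = ∏_J R_J ^ (m ^ (N - |J|) (m - 1) ^ |J|)` modulo `ℓ`, for all `n`;
* for every `j` the number of zeros (with multiplicities) of `R_n` of the form `ζ / q ^ j`, `ζ` a root of unity of
  `ℓ`-power order, is at most `∑_J m ^ (N - |J|) (m - 1) ^ |J| r_J` where `r_J` is the multiplicity of the zero `1` of
  `R_J` modulo `ℓ`: a bound for the orders of the poles of the zeta functions of `X_n` over all extensions of
  `ℓ`-power degree;
* if `ℓ` divides none of the integers `R_J(1)`, then for all `n` there are no Tate classes in the primitive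
  cohomology of `X_n`, over all extensions of `ℓ`-power degree, also for varieties over finitely generated fields
  with good reduction `X_n`.
-/

set_option autoImplicit false

namespace Pool.Agent.Results.MP_4776b1_ag.KummerTowersAllDimensions

open Pool.Agent.K9h8.Kum Polynomial
open scoped LinearAlgebra.Projectivization

theorem result
    -- the base field, with `q = 1` modulo the prime `ℓ`, and an algebraically closed extension
    (ℓ : ℕ) [Fact ℓ.Prime] (k : Type) [Field k] [Fintype k] (hℓ : (ℓ : ℤ) ∣ (Fintype.card k : ℤ) - 1)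
    (K : Type) [Field K] [Algebra k K] [IsAlgClosed K] (σ : Type) [Fintype σ]
    -- the base of the covering and the `N + 1` hypersurfaces
    (Y : Set (ℙ K (σ → K))) (hY : ∀ P ∈ Y, frobP k K σ P ∈ Y) (N : ℕ)
    (f : Fin (N + 1) → MvPolynomial σ k) (d : Fin (N + 1) → ℕ)
    (hf : ∀ i, (f i).IsHomogeneous (d i)) (hd : ∀ i, Nat.Coprime (d i) ℓ)
    (hempty : ∀ P ∈ Y, ∃ i, P ∉ zeros K (f i))
    -- the primitive parts of the strata and of the covering
    (R : Finset (Fin (N + 1)) → ℤ[X])
    (hR : ∀ J, J ≠ Finset.univ → IsPrimitive (Fintype.card k) (N - J.card)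
      (nOrb (frobP k K σ) {P | P ∈ Y ∧ ∀ i ∈ J, P ∈ zeros K (f i)}) (R J))
    (n : ℕ) (Rn : ℤ[X])
    (hRn : IsPrimitive (Fintype.card k) N (nOrb (frobX k K f (ℓ ^ n) d) (prj ⁻¹' Y)) Rn) :
    (Rn.map (Int.castRingHom (ZMod ℓ)) = ∏ J ∈ Finset.univ.erase Finset.univ,
      ((R J).map (Int.castRingHom (ZMod ℓ))) ^ ((ℓ ^ n) ^ (N - J.card) * (ℓ ^ n - 1) ^ J.card)) ∧
    (∀ (E : Type) [Field E] [CharZero E] (a j : ℕ) (s : Multiset E),
      s ≤ (Rn.map (Int.castRingHom E)).roots →
      (∀ z ∈ s, (z * (Fintype.card k : E) ^ j) ^ (ℓ ^ a) = 1) →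
      Multiset.card s ≤ ∑ J ∈ Finset.univ.erase Finset.univ,
        (ℓ ^ n) ^ (N - J.card) * (ℓ ^ n - 1) ^ J.card *
          ((R J).map (Int.castRingHom (ZMod ℓ))).rootMultiplicity 1) ∧
    ((∀ J, J ≠ Finset.univ → ¬ (ℓ : ℤ) ∣ (R J).eval 1) →
      ∀ a j : ℕ, NoTate ((Fintype.card k : ℤ) ^ j) Rn (ℓ ^ a)) := by
  classical
  have hℓp : ℓ.Prime := Fact.out
  have hm : ((ℓ ^ n : ℕ) : K) ≠ 0 := by
    push_cast
    exact pow_ne_zero _ (cast_ne hℓ)
  have hd' : ∀ i, Nat.Coprime (d i) (ℓ ^ n) := fun i => Nat.Coprime.pow_right n (hd i)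
  have hempty' : strat Y f Finset.univ = ∅ := by
    rw [Set.eq_empty_iff_forall_notMem]
    rintro P ⟨hP1, hP2⟩
    obtain ⟨i, hi⟩ := hempty P hP1
    apply hi
    rw [mem_zeros', hP2]
    exact Finset.mem_univ i
  have hclos : ∀ J, clos Y f J = {P | P ∈ Y ∧ ∀ i ∈ J, P ∈ zeros K (f i)} := by
    intro J
    ext P
    constructor
    · rintro ⟨h3, h4⟩
      exact ⟨h3, fun i hi => (mem_zeros' i P).2 (h4 hi)⟩
    · rintro ⟨h3, h4⟩
      exact ⟨h3, fun i hi => (mem_zeros' i P).1 (h4 i hi)⟩
  have hcong : Rn.map (Int.castRingHom (ZMod ℓ)) = ∏ J ∈ Finset.univ.erase Finset.univ,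
      ((R J).map (Int.castRingHom (ZMod ℓ))) ^ ((ℓ ^ n) ^ (N - J.card) * (ℓ ^ n - 1) ^ J.card) :=
    full_formula (k := k) (K := K) hY (by simp) hm hf hd' rfl hℓ hempty' R
      (fun J hJ => by rw [hclos]; exact hR J hJ) hRn
  have hqj : ∀ j : ℕ, (ℓ : ℤ) ∣ (Fintype.card k : ℤ) ^ j - 1 := by
    intro j
    have := sub_dvd_pow_sub_pow (Fintype.card k : ℤ) 1 j
    rw [one_pow] at this
    exact hℓ.trans this
  have hq0 : ∀ j : ℕ, ((Fintype.card k : ℤ) ^ j) ≠ 0 := fun j =>
    pow_ne_zero _ (by exact_mod_cast Fintype.card_ne_zero)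
  have hord := hasOrd_prod_pow (ℓ := ℓ) (Finset.univ.erase (Finset.univ : Finset (Fin (N + 1)))) R
    (fun J hJ => (hR J (Finset.ne_of_mem_erase hJ)).coeff) _ hcong
  refine ⟨hcong, ?_, ?_⟩
  · intro E _ _ a j s hs hz
    refine card_special_le (ℓ := ℓ) (q := (Fintype.card k : ℤ) ^ j) (hqj j) hRn.coeff hord a s hs ?_
    intro z hz'
    have := hz z hz'
    push_cast
    exact this
  · intro hJ a j
    refine noTate_of hℓp (hqj j) (hq0 j) ?_ a
    apply not_dvd_of_eval_map_ne
    rw [hcong, eval_prod, Finset.prod_ne_zero_iff]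
    intro J hJ'
    rw [eval_pow]
    exact pow_ne_zero _ (eval_map_ne (hJ J (Finset.ne_of_mem_erase hJ')))

end Pool.Agent.Results.MP_4776b1_ag.KummerTowersAllDimensions
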