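import Pool.Agent.K9h37.TS.Final

/-!
In characteristic `p` Jannsen's conjectures (part (a), part (b) and the order of the pole) for all
varieties over all finitely generated fields follow from their restriction, for one prime, to the open
subvarieties of smooth projective varieties over the prime field on which all cycles of dimension `i` are
homologically trivial. For these varieties part (a) and the conjecture on the pole are equivalent vanishing
statements.
-/

set_option autoImplicit false

open Pool.Agent.K9h37.TS

namespace Pool.Agent.Results.MP_4776b1_ag.OpenVarietiesOverFiniteFields

/-- **In characteristic `p` a vanishing statement for open varieties over the prime field, for one prime,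
implies all the conjectures.**

Let `p` be a prime, `k` a finitely generated field of characteristic `p` with the absolute Galois
group `Γ`, `Γ₁` the absolute Galois group of the prime field, and `ℓ₀`, `ℓ` primes different
from `p`. Let `T₀` and `T₁` be the étale homology with coefficients `ℚ_ℓ₀` and `ℚ_ℓ` of the varieties over
the prime field, and `T` the one with coefficients `ℚ_ℓ` of the varieties over `k`. The structure
`Homology` and the hypotheses `hgeo` (the geometric part of `Γ₁` is trivial), `hsame` and `hspread` list
the properties which are used. They are published theorems which are not proved here: the
localization sequence, proper descent, cycle classes, Poincaré duality; the theory of weights, the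
semisimplicity theorem for the geometric Galois group, the hard Lefschetz theorem and the
independence of `ℓ` for smooth projective varieties over finite fields (Deligne); the formula for the
order of the L-function which follows from the trace formula (Grothendieck) and from the
weights; existence of alterations (de Jong) and of compactifications (Nagata).

Assume the following, for the one prime `ℓ₀`. Let `X` be smooth and projective of pure dimension
`d ≤ 2 i` over a finite field (considered as a variety over the prime field), `Z ⊆ X` the closure of
finitely many points of dimension `i`, and `U = X ∖ Z`. If the classes of all cycles of dimension `i` on
`U` are zero, then for `U` in dimension `i` part (a) holds (that is, there are no invariants), or the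
second conjecture holds (that is, the L-function has no pole).

Then for all varieties `X` over `k`, which may be singular and not proper, and all `i`: part (a), part
(b) (the group `B_i(X)` of the classes of cycles is finitely generated, and its tensor product with
`ℚ_ℓ` is mapped isomorphically to the invariants) and the second conjecture (the order of the pole of
the L-function is the rank of `B_i(X)`) hold, for `ℓ`.

In particular part (a), part (b) and the second conjecture are equivalent in characteristic `p`, and do not
depend on the prime. Neither the semisimplicity of Frobenius elements nor the equality of
homological and numerical equivalence is assumed.

The main step: let `X` be smooth and projective over a finite field, and let the classes of the components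
of `Z` span the space of the classes of cycles. The classes on `U = X ∖ Z` are zero, so there are no
invariants, hence no generalised invariants, in the homology of `U`. So the generalised invariants in
the homology of `X` come from `Z`, where Frobenius has finite order and the invariants are classes of
cycles. -/
theorem result (p : ℕ) [Fact p.Prime] (ℓ₀ ℓ : ℕ) [Fact ℓ₀.Prime] [Fact ℓ.Prime]
    (k : Type) [Field k] (Γ₁ Γ : Type) [Group Γ₁] [Group Γ]
    (T₀ : Homology (ZMod p) ℚ_[ℓ₀] Γ₁) (T₁ : Homology (ZMod p) ℚ_[ℓ] Γ₁) (T : Homology k ℚ_[ℓ] Γ)
    (hgeo : T₀.geo = ⊥)
    (hsame : SameNumbers T₀.toHomologyData T₁.toHomologyData)
    (hspread : SpreadingOut T₁.toHomologyData T.toHomologyData)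
    (hAlt₀ : Alterations (ZMod p)) (hComp₀ : Compactifications (ZMod p))
    (hAlt : Alterations k) (hComp : Compactifications k)
    (hA : OpenHypothesis T₀.toHomologyData) (i : ℕ) (X : Sch k) (hX : IsVariety X) :
    T.PartA i X ∧ T.PartB i X ∧ T.PoleOrder i X :=
  main p ℓ₀ ℓ k Γ₁ Γ T₀ T₁ T hgeo hsame hspread hAlt₀ hComp₀ hAlt hComp hA i X hX

end Pool.Agent.Results.MP_4776b1_ag.OpenVarietiesOverFiniteFields
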