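import Pool.Agent.K9h8.Kum.Tens

/-!
# Products of the members of two Kummer towers

Let `k` be a finite field with `q` elements, `ℓ` a prime with `ℓ ∣ q - 1`. A tower (`Tower`) is given by a closed
subset `Y` of dimension `N` of projective space over `k` and `N + 1` forms `f_i` over `k`, of degrees prime to `ℓ` and
without common zero on `Y`; its members are the Kummer covers `X_n : b_i ^ (ℓ ^ n) = f_i(a)` of `Y`. We fix the
primitive parts `R_J` of the zeta functions of the strata `Y_J = Y ∩ {f_i = 0 for i ∈ J}`.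

Consider two towers, of dimensions `N` and `N'`, such that `ℓ` does not divide `R_J(1)`, `R'_{J'}(1)`, and that modulo
`ℓ` no zero of any `R_J` is the inverse of a zero of any `R'_{J'}`. Let `R`, `R'` be the primitive parts of the zeta
functions of ANY members `X_n`, `X'_{n'}` of the towers. Then, over all extensions of `k` of `ℓ`-power degree, the
primitive cohomology groups `P`, `P'` of `X_n`, `X'_{n'}` and their tensor product `P ⊗ P'` do not contain Tate classes
(of any twist). If `X_n`, `X'_{n'}` are smooth, all Tate classes of the product `X_n × X'_{n'}`, in all codimensions,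
are combinations of products of linear sections: the Tate conjectures hold for the products. For two towers of
surfaces these are fourfolds, and the new case is that of classes of codimension two.
-/

set_option autoImplicit false

namespace Pool.Agent.Results.MP_4776b1_ag.ProductsOfTowers

open Pool.Agent.K9h8.Kum Polynomial TensorProduct
open scoped LinearAlgebra.Projectivization

/-- `N + 1` forms `f i`, of degrees `d i` prime to `ℓ`, on a Frobenius-stable set `Y`, without common zero on `Y`;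
`R J` is the primitive part of the zeta function of `Y ∩ {f i = 0 for i ∈ J}`, in dimension `N - |J|`. -/
structure Tower (k : Type) [Field k] [Fintype k] (K : Type) [Field K] [Algebra k K] (ℓ : ℕ) {σ : Type}
    (N : ℕ) (Y : Set (ℙ K (σ → K))) (f : Fin (N + 1) → MvPolynomial σ k) (d : Fin (N + 1) → ℕ)
    (R : Finset (Fin (N + 1)) → ℤ[X]) : Prop where
  stable : ∀ P ∈ Y, frobP k K σ P ∈ Y
  homog : ∀ i, (f i).IsHomogeneous (d i)
  coprime : ∀ i, Nat.Coprime (d i) ℓ
  empty : ∀ P ∈ Y, ∃ i, P ∉ zeros K (f i)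
  primitive : ∀ J, J ≠ Finset.univ → IsPrimitive (Fintype.card k) (N - J.card)
    (nOrb (frobP k K σ) {P | P ∈ Y ∧ ∀ i ∈ J, P ∈ zeros K (f i)}) (R J)

/-- Let `φ` be an element of a group `Γ` acting on finite dimensional vector spaces `V`, `V'` over a field of
characteristic `0` such that `det(1 - φ T)` is `R(T)` and `R'(T)`, and let `ε` be a character of `Γ` with
`ε(φ) = q`. Then no nonzero vector `v` of the tensor product satisfies `g v = ε(g) v` for all `g` in a subgroup that
contains `φ ^ m`. -/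
def NoTatePair (q : ℤ) (R R' : ℤ[X]) (m : ℕ) : Prop :=
  ∀ (E : Type) [Field E] [CharZero E] (V V' : Type) [AddCommGroup V] [Module E V] [FiniteDimensional E V]
    [AddCommGroup V'] [Module E V'] [FiniteDimensional E V'] (Γ : Type) [Group Γ]
    (ρ : Representation E Γ V) (ρ' : Representation E Γ V') (φ : Γ) (ε : Γ →* E),
    (ρ φ).charpoly.reverse = R.map (Int.castRingHom E) →
    (ρ' φ).charpoly.reverse = R'.map (Int.castRingHom E) → ε φ = q →
    ∀ Γ' : Subgroup Γ, φ ^ m ∈ Γ' → ∀ v : V ⊗[E] V',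
      (∀ g ∈ Γ', TensorProduct.map (ρ g) (ρ' g) v = ε g • v) → v = 0

theorem congruence {ℓ : ℕ} [Fact ℓ.Prime] {k : Type} [Field k] [Fintype k]
    (hℓ : (ℓ : ℤ) ∣ (Fintype.card k : ℤ) - 1) {K : Type} [Field K] [Algebra k K] [IsAlgClosed K]
    {σ : Type} [Fintype σ] {N : ℕ} {Y : Set (ℙ K (σ → K))} {f : Fin (N + 1) → MvPolynomial σ k}
    {d : Fin (N + 1) → ℕ} {R : Finset (Fin (N + 1)) → ℤ[X]} (h : Tower k K ℓ N Y f d R)
    (n : ℕ) {Rn : ℤ[X]}
    (hRn : IsPrimitive (Fintype.card k) N (nOrb (frobX k K f (ℓ ^ n) d) (prj ⁻¹' Y)) Rn) :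
    Rn.map (Int.castRingHom (ZMod ℓ)) = ∏ J ∈ Finset.univ.erase Finset.univ,
      ((R J).map (Int.castRingHom (ZMod ℓ))) ^ ((ℓ ^ n) ^ (N - J.card) * (ℓ ^ n - 1) ^ J.card) := by
  classical
  have hm : ((ℓ ^ n : ℕ) : K) ≠ 0 := by
    push_cast
    exact pow_ne_zero _ (cast_ne hℓ)
  have hd' : ∀ i, Nat.Coprime (d i) (ℓ ^ n) := fun i => Nat.Coprime.pow_right n (h.coprime i)
  have hempty' : strat Y f Finset.univ = ∅ := by
    rw [Set.eq_empty_iff_forall_notMem]
    rintro P ⟨hP1, hP2⟩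
    obtain ⟨i, hi⟩ := h.empty P hP1
    apply hi
    rw [mem_zeros', hP2]
    exact Finset.mem_univ i
  have hclos : ∀ J, clos Y f J = {P | P ∈ Y ∧ ∀ i ∈ J, P ∈ zeros K (f i)} := by
    intro J
    ext P
    constructor
    · rintro ⟨h3, h4⟩
      exact ⟨h3, fun i hi => (mem_zeros' i P).2 (h4 hi)⟩
    · rintro ⟨h3, h4⟩
      exact ⟨h3, fun i hi => (mem_zeros' i P).1 (h4 i hi)⟩
  exact full_formula (k := k) (K := K) h.stable (by simp) hm h.homog hd' rfl hℓ hempty' R
    (fun J hJ => by rw [hclos]; exact h.primitive J hJ) hRn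

theorem reverse_prod' {κ : Type*} [Field κ] {ι : Type*} (s : Finset ι) (P : ι → κ[X]) (a : ι → ℕ) :
    (∏ J ∈ s, P J ^ a J).reverse = ∏ J ∈ s, (P J).reverse ^ a J := by
  classical
  induction s using Finset.induction_on with
  | empty => rw [Finset.prod_empty, Finset.prod_empty, ← C_1, reverse_C]
  | insert J s hJ ih =>
    rw [Finset.prod_insert hJ, Finset.prod_insert hJ, reverse_mul_of_domain, ih]
    congr 1
    generalize a J = b
    induction b with
    | zero => rw [pow_zero, pow_zero, ← C_1, reverse_C]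
    | succ b ihb => rw [pow_succ, pow_succ, reverse_mul_of_domain, ihb]

/-- **Theorem.** -/
theorem result
    -- the base field, with `q = 1` modulo the prime `ℓ`, and an algebraically closed extension
    (ℓ : ℕ) [Fact ℓ.Prime] (k : Type) [Field k] [Fintype k] (hℓ : (ℓ : ℤ) ∣ (Fintype.card k : ℤ) - 1)
    (K : Type) [Field K] [Algebra k K] [IsAlgClosed K]
    -- the two towers
    (σ σ' : Type) [Fintype σ] [Fintype σ'] (N N' : ℕ) (Y : Set (ℙ K (σ → K))) (Y' : Set (ℙ K (σ' → K)))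
    (f : Fin (N + 1) → MvPolynomial σ k) (f' : Fin (N' + 1) → MvPolynomial σ' k)
    (d : Fin (N + 1) → ℕ) (d' : Fin (N' + 1) → ℕ)
    (R : Finset (Fin (N + 1)) → ℤ[X]) (R' : Finset (Fin (N' + 1)) → ℤ[X])
    (h : Tower k K ℓ N Y f d R) (h' : Tower k K ℓ N' Y' f' d' R')
    -- the conditions modulo `ℓ`
    (h1 : ∀ J, J ≠ Finset.univ → ¬ (ℓ : ℤ) ∣ (R J).eval 1)
    (h1' : ∀ J, J ≠ Finset.univ → ¬ (ℓ : ℤ) ∣ (R' J).eval 1)
    (hco : ∀ J J', J ≠ Finset.univ → J' ≠ Finset.univ →
      IsCoprime ((R J).map (Int.castRingHom (ZMod ℓ))) ((R' J').map (Int.castRingHom (ZMod ℓ))).reverse)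
    -- two members
    (n n' : ℕ) (Rn Rn' : ℤ[X])
    (hRn : IsPrimitive (Fintype.card k) N (nOrb (frobX k K f (ℓ ^ n) d) (prj ⁻¹' Y)) Rn)
    (hRn' : IsPrimitive (Fintype.card k) N' (nOrb (frobX k K f' (ℓ ^ n') d') (prj ⁻¹' Y')) Rn') :
    ∀ a j : ℕ, NoTate ((Fintype.card k : ℤ) ^ j) Rn (ℓ ^ a) ∧
      NoTate ((Fintype.card k : ℤ) ^ j) Rn' (ℓ ^ a) ∧
      NoTatePair ((Fintype.card k : ℤ) ^ j) Rn Rn' (ℓ ^ a) := by
  classical
  have hℓp : ℓ.Prime := Fact.out
  have c1 := congruence hℓ h n hRn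
  have c2 := congruence hℓ h' n' hRn'
  intro a j
  have hqj : (ℓ : ℤ) ∣ (Fintype.card k : ℤ) ^ j - 1 := by
    have := sub_dvd_pow_sub_pow (Fintype.card k : ℤ) 1 j
    rw [one_pow] at this
    exact hℓ.trans this
  have hq0 : ((Fintype.card k : ℤ) ^ j) ≠ 0 := pow_ne_zero _ (by exact_mod_cast Fintype.card_ne_zero)
  refine ⟨?_, ?_, ?_⟩
  · refine noTate_of hℓp hqj hq0 ?_ a
    apply not_dvd_of_eval_map_ne
    rw [c1, eval_prod, Finset.prod_ne_zero_iff]
    intro J hJ'
    rw [eval_pow]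
    exact pow_ne_zero _ (eval_map_ne (h1 J (Finset.ne_of_mem_erase hJ')))
  · refine noTate_of hℓp hqj hq0 ?_ a
    apply not_dvd_of_eval_map_ne
    rw [c2, eval_prod, Finset.prod_ne_zero_iff]
    intro J hJ'
    rw [eval_pow]
    exact pow_ne_zero _ (eval_map_ne (h1' J (Finset.ne_of_mem_erase hJ')))
  · intro E _ _ V V' _ _ _ _ _ _ Γ _ ρ ρ' φ ε hφ hφ' hε Γ' hΓ v hv
    refine no_tensor hℓp hqj hq0 hRn.coeff hRn'.coeff ?_ (ρ φ) (ρ' φ) hφ hφ' a v ?_
    · rw [c1, c2, reverse_prod']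
      refine IsCoprime.prod_left fun J hJ => IsCoprime.prod_right fun J' hJ' => ?_
      exact (hco J J' (Finset.ne_of_mem_erase hJ) (Finset.ne_of_mem_erase hJ')).pow
    · have h3 := hv _ hΓ
      rw [map_pow, map_pow, map_pow, hε, ← TensorProduct.map_pow] at h3
      push_cast at h3 ⊢
      exact h3

end Pool.Agent.Results.MP_4776b1_ag.ProductsOfTowers
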